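import Pool.Agent.MTO.Stmts

set_option autoImplicit false

namespace Pool.Agent.MTO.H52

open Pool.Agent.MTO

theorem arith1 (c r Y s κ : ℤ) (hc : 0 ≤ c) (hs2 : 2 ≤ s) (hsr : s ≤ r) (hκc : 2 * c ≤ κ)
    (hκs : 2 * s ≤ κ) (hY : 4 * Y ≤ s * r) : 2 * c + 3 * r + 2 * Y ≤ 2 * c * r + r ^ 2 + κ := by
  have hr2 : 2 ≤ r := le_trans hs2 hsr
  rcases hc.eq_or_lt with h | h
  · subst h
    by_cases hr : r ≤ 4
    · nlinarith [mul_nonneg (sub_nonneg.mpr hs2) (sub_nonneg.mpr hr), sq_nonneg (r - 2)]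
    · push Not at hr
      nlinarith [mul_nonneg (sub_nonneg.mpr hsr) (sub_nonneg.mpr hr.le),
        mul_nonneg (sub_nonneg.mpr hr2) (by linarith : (0 : ℤ) ≤ r)]
  · have h1 : 1 ≤ c := h
    have h2 : s * r ≤ r * r := mul_le_mul_of_nonneg_right hsr (by linarith)
    nlinarith [mul_nonneg (sub_nonneg.mpr h1) (by linarith : (0 : ℤ) ≤ r),
      mul_nonneg (sub_nonneg.mpr hr2) (by linarith : (0 : ℤ) ≤ r)]

theorem arith2 (c r κ : ℤ) (hc : 0 ≤ c) (hr : 1 ≤ r) (hκc : 2 * c ≤ κ) (hκ2 : 2 ≤ κ) :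
    2 * c + 3 * r + 2 * 0 ≤ 2 * c * r + r ^ 2 + κ := by
  rcases hc.eq_or_lt with h | h
  · subst h
    rcases hr.eq_or_lt with h' | h'
    · subst h'
      linarith
    · have h2 : 2 ≤ r := h'
      nlinarith [mul_nonneg (sub_nonneg.mpr h2) (sub_nonneg.mpr hr)]
  · have h1 : 1 ≤ c := h
    nlinarith [mul_nonneg (sub_nonneg.mpr h1) (by linarith : (0 : ℤ) ≤ r),
      mul_nonneg (sub_nonneg.mpr hr) (by linarith : (0 : ℤ) ≤ r)]

theorem nle : NleStmt := by
  classical
  intro P _ c y z κ hc hyz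
  by_cases hP : Nonempty P
  swap
  · have hE : IsEmpty P := not_nonempty_iff.mp hP
    simp only [Finset.univ_eq_empty, Finset.sum_empty]
    omega
  obtain ⟨m, hm⟩ := Finite.exists_max (fun p => y p + z p)
  set s := y m + z m with hs
  have hκs : 2 * s ≤ κ := hyz m
  have hsr : s ≤ ∑ p, (y p + z p) :=
    Finset.single_le_sum (f := fun p => y p + z p) (fun p _ => Nat.zero_le _) (Finset.mem_univ m)
  rcases Nat.lt_or_ge s 2 with hs2 | hs2
  · have hY : ∑ p, y p * z p = 0 := by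
      refine Finset.sum_eq_zero fun p _ => ?_
      have h1 : y p + z p ≤ 1 := (hm p).trans (Nat.lt_succ_iff.mp hs2)
      rcases Nat.eq_zero_or_pos (y p) with h | h
      · rw [h, zero_mul]
      · have : z p = 0 := by omega
        rw [this, mul_zero]
    rw [hY]
    rcases Nat.eq_zero_or_pos s with hs0 | hs0
    · have hr : ∑ p, (y p + z p) = 0 := by
        refine Finset.sum_eq_zero fun p _ => ?_
        have h1 : y p + z p ≤ s := hm p
        omega
      rw [hr]
      omega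
    · have h1 := arith2 c (∑ p, (y p + z p) : ℕ) κ (by positivity)
        (by exact_mod_cast hs0.trans_le hsr) (by exact_mod_cast hc)
        (by exact_mod_cast (by omega : 2 ≤ κ))
      exact_mod_cast h1
  · have hY : 4 * ∑ p, y p * z p ≤ s * ∑ p, (y p + z p) := by
      rw [Finset.mul_sum, Finset.mul_sum]
      refine Finset.sum_le_sum fun p _ => ?_
      have h1 : 4 * (y p * z p) ≤ (y p + z p) * (y p + z p) := by
        zify
        nlinarith [sq_nonneg ((y p : ℤ) - z p)]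
      exact h1.trans (Nat.mul_le_mul_right _ (hm p))
    have h1 := arith1 c (∑ p, (y p + z p) : ℕ) (∑ p, y p * z p : ℕ) s κ (by positivity)
      (by exact_mod_cast hs2) (by exact_mod_cast hsr) (by exact_mod_cast hc)
      (by exact_mod_cast hκs) (by exact_mod_cast hY)
    exact_mod_cast h1

end Pool.Agent.MTO.H52
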